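import Mathlib

set_option autoImplicit false
open IsLocalRing

namespace EA7.H62

/-- the direct sum of the modules `f n`, `n` in a list -/
noncomputable def dsum {R : Type} [CommRing R] (f : ℕ → ModuleCat.{0} R) :
    List ℕ → ModuleCat.{0} R
  | [] => ModuleCat.of R PUnit.{1}
  | n :: l => ModuleCat.of R (f n × dsum f l)

theorem dsum_append {R : Type} [CommRing R] (f : ℕ → ModuleCat.{0} R) (l₁ l₂ : List ℕ) :
    Nonempty (dsum f (l₁ ++ l₂) ≃ₗ[R] (dsum f l₁ × dsum f l₂)) := by
  induction l₁ with
  | nil =>
    exact ⟨(LinearEquiv.uniqueProd (R := R) (M := dsum f l₂) (M₂ := PUnit.{1})).symm⟩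
  | cons n l ih =>
    obtain ⟨e⟩ := ih
    exact ⟨((LinearEquiv.refl R (f n)).prodCongr e).trans
      (LinearEquiv.prodAssoc R (f n) (dsum f l) (dsum f l₂)).symm⟩

end EA7.H62

namespace EA7

open EA7.H62 in
/-- Task M (enumeration of all finitely generated modules in a class closed under summands). -/
theorem enum_all {R : Type} [CommRing R] [IsNoetherianRing R] [IsLocalRing R]
    (P : ModuleCat.{0} R → Prop)
    (hsub : ∀ M : ModuleCat.{0} R, P M → ∀ N₁ N₂ : Submodule R M, IsCompl N₁ N₂ →
      P (ModuleCat.of R N₁))
    (f : ℕ → ModuleCat.{0} R)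
    (hf : ∀ M : ModuleCat.{0} R, Module.Finite R M →
      (Nontrivial M ∧ ∀ N₁ N₂ : Submodule R M, IsCompl N₁ N₂ → N₁ = ⊥ ∨ N₂ = ⊥) → P M →
      ∃ n, Nonempty (M ≃ₗ[R] f n)) :
    ∃ g : ℕ → ModuleCat.{0} R, ∀ M : ModuleCat.{0} R, Module.Finite R M → P M →
      ∃ n, Nonempty (M ≃ₗ[R] g n) := by
  have main : ∀ M : ModuleCat.{0} R, Module.Finite R M → P M →
      ∃ l, Nonempty (M ≃ₗ[R] dsum f l) := by
    intro M hM hP
    have key : ∀ N N' : Submodule R M, IsCompl N' N →
        ∃ l, Nonempty (N' ≃ₗ[R] dsum f l) := by
      intro N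
      induction N using WellFoundedGT.induction with
      | ind N ih =>
        intro N' hN
        by_cases hbot : N' = ⊥
        · subst hbot
          refine ⟨[], ⟨?_⟩⟩
          exact (show (↥(⊥ : Submodule R M)) ≃ₗ[R] PUnit.{1} from
            { toFun := fun _ => 0
              map_add' := fun _ _ => rfl
              map_smul' := fun _ _ => rfl
              invFun := fun _ => 0
              left_inv := fun x => Subsingleton.elim _ _
              right_inv := fun x => rfl })
        by_cases hind : ∀ N₁ N₂ : Submodule R N', IsCompl N₁ N₂ → N₁ = ⊥ ∨ N₂ = ⊥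
        · obtain ⟨n, ⟨e⟩⟩ := hf (ModuleCat.of R N') (inferInstanceAs (Module.Finite R N'))
            ⟨(Submodule.nontrivial_iff_ne_bot).mpr hbot, hind⟩ (hsub M hP N' N hN)
          refine ⟨[n], ⟨?_⟩⟩
          exact (show N' ≃ₗ[R] f n from e).trans
            (LinearEquiv.prodUnique (R := R) (M := f n) (M₂ := PUnit.{1})).symm
        · push Not at hind
          obtain ⟨N₁, N₂, h12, h1, h2⟩ := hind
          set A := N₁.map N'.subtype with hA
          set B := N₂.map N'.subtype with hB
          have hAB : A ⊔ B = N' := by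
            rw [hA, hB, ← Submodule.map_sup, h12.sup_eq_top, Submodule.map_top,
              Submodule.range_subtype]
          have hdis : Disjoint A B := by
            rw [disjoint_iff, hA, hB, ← Submodule.map_inf _ N'.subtype_injective,
              h12.inf_eq_bot, Submodule.map_bot]
          have hA0 : A ≠ ⊥ := by
            intro h0
            apply h1
            rw [hA] at h0
            exact (Submodule.map_injective_of_injective N'.subtype_injective)
              (h0.trans (Submodule.map_bot _).symm)
          have hB0 : B ≠ ⊥ := by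
            intro h0
            apply h2
            rw [hB] at h0
            exact (Submodule.map_injective_of_injective N'.subtype_injective)
              (h0.trans (Submodule.map_bot _).symm)
          have step : ∀ A B : Submodule R M, A ⊔ B = N' → Disjoint A B → B ≠ ⊥ →
              ∃ l, Nonempty (A ≃ₗ[R] dsum f l) := by
            intro A B hAB hdis hB0
            have hc : IsCompl A (B ⊔ N) := by
              constructor
              · apply Disjoint.disjoint_sup_right_of_disjoint_sup_left hdis
                rw [hAB]; exact hN.disjoint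
              · rw [codisjoint_iff, ← sup_assoc, hAB]
                exact hN.sup_eq_top
            apply ih (B ⊔ N) _ A hc
            refine lt_of_le_of_ne le_sup_right ?_
            intro heq
            apply hB0
            have hBN : B ≤ N := by rw [heq]; exact le_sup_left
            have hBN' : B ≤ N' := by rw [← hAB]; exact le_sup_right
            rw [eq_bot_iff, ← hN.inf_eq_bot]
            exact le_inf hBN' hBN
          obtain ⟨l₁, ⟨e₁⟩⟩ := step A B hAB hdis hB0
          obtain ⟨l₂, ⟨e₂⟩⟩ := step B A (by rw [sup_comm]; exact hAB) hdis.symm hA0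
          obtain ⟨e⟩ := dsum_append f l₁ l₂
          refine ⟨l₁ ++ l₂, ⟨?_⟩⟩
          have i1 : N' ≃ₗ[R] (N₁ × N₂) := (Submodule.prodEquivOfIsCompl N₁ N₂ h12).symm
          have i2 : (N₁ × N₂) ≃ₗ[R] (A × B) :=
            (Submodule.equivMapOfInjective N'.subtype N'.subtype_injective N₁).prodCongr
            (Submodule.equivMapOfInjective N'.subtype N'.subtype_injective N₂)
          have i3 : (A × B) ≃ₗ[R] (dsum f l₁ × dsum f l₂) := e₁.prodCongr e₂
          exact (i1.trans i2).trans (i3.trans e.symm)
    obtain ⟨l, ⟨e⟩⟩ := key ⊥ ⊤ isCompl_top_bot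
    exact ⟨l, ⟨Submodule.topEquiv.symm.trans e⟩⟩
  obtain ⟨dec, hdec⟩ := exists_surjective_nat (List ℕ)
  refine ⟨fun n => dsum f (dec n), ?_⟩
  intro M hM hP
  obtain ⟨l, e⟩ := main M hM hP
  obtain ⟨n, rfl⟩ := hdec l
  exact ⟨n, e⟩

end EA7
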