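import Mathlib

set_option autoImplicit false
open IsLocalRing

namespace EA7.H62

/-- covering ideals have lengths differing by one -/
theorem length_covBy {A : Type} [CommRing A] {X Y : Ideal A} (h : X ⋖ Y) :
    Module.length A Y = Module.length A X + 1 := by
  have hs := (covBy_iff_quot_is_simple h.le).mp h
  rw [Module.length_eq_add_of_exact (Submodule.inclusion h.le)
    (Submodule.comap Y.subtype X).mkQ (Submodule.inclusion_injective _)
    (Submodule.mkQ_surjective _), Module.length_eq_one_iff.mpr hs]
  intro y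
  constructor
  · intro hy
    have h1 : y ∈ Submodule.comap Y.subtype X := by
      simpa using hy
    exact ⟨⟨y.1, h1⟩, rfl⟩
  · rintro ⟨x, rfl⟩
    have h1 : Submodule.inclusion h.le x ∈ Submodule.comap Y.subtype X := x.2
    simpa using h1

/-- length of ideals is strictly monotone -/
theorem length_lt {A : Type} [CommRing A] [IsArtinianRing A] {X Y : Ideal A} (h : X < Y) :
    Module.length A X + 1 ≤ Module.length A Y := by
  have := Submodule.height_strictMono (R := A) (M := A) h
  rw [← Module.length_submodule, ← Module.length_submodule] at this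
  exact Order.add_one_le_of_lt this

variable {A : Type} [CommRing A] [IsArtinianRing A] [IsLocalRing A]

/-- annihilator as an ideal -/
def ann (I : Ideal A) : Ideal A where
  carrier := {b | ∀ x ∈ I, b * x = 0}
  add_mem' := by
    intro a b ha hb x hx
    rw [add_mul, ha x hx, hb x hx, add_zero]
  zero_mem' := by
    intro x _
    rw [zero_mul]
  smul_mem' := by
    intro c b hb x hx
    rw [smul_eq_mul, mul_assoc, hb x hx, mul_zero]

theorem mem_ann {I : Ideal A} {b : A} : b ∈ ann I ↔ ∀ x ∈ I, b * x = 0 := Iff.rfl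

/-- two elements killed by the maximal ideal are proportional -/
theorem soc_one {K : Ideal A} (hK : K ≠ ⊥) (hmin : ∀ K' : Ideal A, K' ≠ ⊥ → K ≤ K')
    {y z : A} (hy0 : y ≠ 0) (hy : ∀ a ∈ maximalIdeal A, a * y = 0)
    (hz : ∀ a ∈ maximalIdeal A, a * z = 0) : ∃ r, z = r * y := by
  by_cases hz0 : z = 0
  · exact ⟨0, by rw [hz0, zero_mul]⟩
  obtain ⟨t, ht, ht0⟩ := Submodule.exists_mem_ne_zero_of_ne_bot hK
  have h1 : t ∈ Ideal.span {y} := hmin _ (by simpa using hy0) ht
  have h2 : t ∈ Ideal.span {z} := hmin _ (by simpa using hz0) ht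
  obtain ⟨r, hr⟩ := Ideal.mem_span_singleton'.mp h1
  obtain ⟨s, hs⟩ := Ideal.mem_span_singleton'.mp h2
  have hsu : IsUnit s := by
    by_contra hns
    exact ht0 (by rw [← hs, hz s ((mem_maximalIdeal s).mpr hns)])
  obtain ⟨u, rfl⟩ := hsu
  refine ⟨(↑u⁻¹ : A) * r, ?_⟩
  rw [mul_assoc, hr, ← hs, ← mul_assoc, Units.inv_mul, one_mul]

/-- the maximal ideal multiplies `I` into `J` when `J ⋖ I` -/
theorem mul_mem_of_covBy {I J : Ideal A} (h : J ⋖ I) {a x : A} (ha : a ∈ maximalIdeal A)
    (hx : x ∈ I) : a * x ∈ J := by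
  have h1 : J ⊔ maximalIdeal A * I = J ∨ J ⊔ maximalIdeal A * I = I := by
    have hle : J ⊔ maximalIdeal A * I ≤ I := sup_le h.le Ideal.mul_le_right
    exact (h.eq_or_eq le_sup_left hle)
  rcases h1 with h1 | h1
  · rw [← h1]
    exact Ideal.mem_sup_right (Ideal.mul_mem_mul ha hx)
  · exfalso
    have h2 : I ≤ J := by
      apply Submodule.le_of_le_smul_of_le_jacobson_bot (I := maximalIdeal A) (N := J) (N' := I)
      · exact IsNoetherian.noetherian I
      · exact maximalIdeal_le_jacobson _
      · rw [smul_eq_mul]; exact h1.ge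
    exact absurd h2 (not_le_of_gt h.lt)

/-- `I` is generated by `J` and any element outside -/
theorem sup_span_of_covBy {I J : Ideal A} (h : J ⋖ I) {x : A} (hx : x ∈ I) (hxJ : x ∉ J) :
    J ⊔ Ideal.span {x} = I := by
  have hle : J ⊔ Ideal.span {x} ≤ I :=
    sup_le h.le ((Ideal.span_singleton_le_iff_mem _).mpr hx)
  rcases h.eq_or_eq le_sup_left hle with h1 | h1
  · exfalso
    exact hxJ (h1 ▸ Ideal.mem_sup_right (Ideal.mem_span_singleton_self x))
  · exact h1

theorem ann_anti {I J : Ideal A} (h : J ≤ I) : ann I ≤ ann J :=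
  fun _ hb x hx => hb x (h hx)

theorem ann_step {K : Ideal A} (hK : K ≠ ⊥) (hmin : ∀ K' : Ideal A, K' ≠ ⊥ → K ≤ K')
    {I J : Ideal A} (h : J ⋖ I) : ann I = ann J ∨ ann I ⋖ ann J := by
  by_cases heq : ann I = ann J
  · exact Or.inl heq
  refine Or.inr ⟨lt_of_le_of_ne (ann_anti h.le) heq, ?_⟩
  intro Z hZ1 hZ2
  obtain ⟨b, hbZ, hbI⟩ := SetLike.exists_of_lt hZ1
  obtain ⟨x, hx, hxJ⟩ := SetLike.exists_of_lt h.lt
  have hbJ : b ∈ ann J := hZ2.le hbZ
  have hgen := sup_span_of_covBy h hx hxJ
  have hkill : ∀ c ∈ ann J, c * x = 0 → c ∈ ann I := by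
    intro c hc hcx y hy
    rw [← hgen] at hy
    obtain ⟨j, hj, s, hs, rfl⟩ := Submodule.mem_sup.mp hy
    obtain ⟨r, rfl⟩ := Ideal.mem_span_singleton'.mp hs
    rw [mul_add, hc j hj, zero_add, mul_left_comm, hcx, mul_zero]
  have hbx : b * x ≠ 0 := fun h0 => hbI (hkill b hbJ h0)
  have hsoc : ∀ c ∈ ann J, ∀ a ∈ maximalIdeal A, a * (c * x) = 0 := by
    intro c hc a ha
    rw [mul_left_comm]
    exact hc _ (mul_mem_of_covBy h ha hx)
  apply absurd hZ2
  apply not_lt_of_ge
  intro c hc
  obtain ⟨r, hr⟩ := soc_one hK hmin hbx (hsoc b hbJ) (hsoc c hc)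
  have h1 : c - r * b ∈ ann I := by
    apply hkill
    · exact sub_mem hc (Ideal.mul_mem_left _ _ hbJ)
    · rw [sub_mul, mul_assoc, ← hr, sub_self]
  have h2 : c = (c - r * b) + r * b := by ring
  rw [h2]
  exact add_mem (hZ1.le h1) (Ideal.mul_mem_left _ _ hbZ)

theorem ann_length_step {K : Ideal A} (hK : K ≠ ⊥)
    (hmin : ∀ K' : Ideal A, K' ≠ ⊥ → K ≤ K') {I J : Ideal A} (h : J ⋖ I) :
    Module.length A (ann J) ≤ Module.length A (ann I) + 1 := by
  rcases ann_step hK hmin h with h1 | h1
  · rw [h1]; exact le_self_add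
  · rw [length_covBy h1]

theorem lower {K : Ideal A} (hK : K ≠ ⊥) (hmin : ∀ K' : Ideal A, K' ≠ ⊥ → K ≤ K')
    (I : Ideal A) : Module.length A A ≤ Module.length A (ann I) + Module.length A I := by
  induction I using WellFoundedLT.induction with
  | ind I ih =>
    by_cases hI : I = ⊥
    · subst hI
      have : ann (⊥ : Ideal A) = ⊤ := by
        rw [eq_top_iff]
        intro b _ x hx
        rw [(Submodule.mem_bot A).mp hx, mul_zero]
      rw [this, Module.length_top]
      exact le_self_add
    · obtain ⟨J, hJ⟩ := exists_covBy_of_wellFoundedGT (a := I) (by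
        rw [isMin_iff_eq_bot]; exact hI)
      calc Module.length A A ≤ Module.length A (ann J) + Module.length A J := ih J hJ.lt
        _ ≤ (Module.length A (ann I) + 1) + Module.length A J := by
            gcongr
            exact ann_length_step hK hmin hJ
        _ = Module.length A (ann I) + (Module.length A J + 1) := by
            rw [add_assoc, add_comm 1]
        _ ≤ _ := by
            gcongr
            exact length_lt hJ.lt

theorem upper {K : Ideal A} (hK : K ≠ ⊥) (hmin : ∀ K' : Ideal A, K' ≠ ⊥ → K ≤ K')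
    (I : Ideal A) : Module.length A (ann I) + Module.length A I ≤ Module.length A A := by
  induction I using WellFoundedGT.induction with
  | ind I ih =>
    by_cases hI : I = ⊤
    · subst hI
      have : ann (⊤ : Ideal A) = ⊥ := by
        rw [eq_bot_iff]
        intro b hb
        have := hb 1 (by simp)
        rw [mul_one] at this
        simpa using this
      rw [this, Module.length_bot, zero_add, Module.length_top]
    · obtain ⟨J, hJ⟩ := exists_covBy_of_wellFoundedLT (a := I) (by
        rw [isMax_iff_eq_top]; exact hI)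
      calc Module.length A (ann I) + Module.length A I
          ≤ (Module.length A (ann J) + 1) + Module.length A I := by
            gcongr
            exact ann_length_step hK hmin hJ
        _ = Module.length A (ann J) + (Module.length A I + 1) := by
            rw [add_assoc, add_comm 1]
        _ ≤ Module.length A (ann J) + Module.length A J := by
            gcongr
            exact length_lt hJ.lt
        _ ≤ _ := ih J hJ.lt

theorem ann_ne {K : Ideal A} (hK : K ≠ ⊥) (hmin : ∀ K' : Ideal A, K' ≠ ⊥ → K ≤ K')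
    {I J : Ideal A} (h : J ⋖ I) : ann I ≠ ann J := by
  intro heq
  have h1 := lower hK hmin J
  have h2 := upper hK hmin I
  have h3 := length_lt h.lt
  have hJf : Module.length A J ≠ ⊤ := Module.length_ne_top
  have haf : Module.length A (ann J) ≠ ⊤ := Module.length_ne_top
  rw [heq] at h2
  have h4 : Module.length A (ann J) + (Module.length A J + 1)
      ≤ Module.length A (ann J) + Module.length A J :=
    (add_le_add_right h3 _).trans (h2.trans h1)
  have h5 := (ENat.add_le_add_iff_left haf).mp h4
  exact absurd h5 (not_le_of_gt (ENat.lt_add_one_iff hJf |>.mpr le_rfl))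

end EA7.H62

namespace EA7

open EA7.H62 in
/-- Task S (self-injectivity). -/
theorem baer_of_least_ideal {A : Type} [CommRing A] [IsArtinianRing A] [IsLocalRing A]
    (K : Ideal A) (hK : K ≠ ⊥) (hmin : ∀ K' : Ideal A, K' ≠ ⊥ → K ≤ K') :
    Module.Baer A A := by
  have key : ∀ I : Ideal A, ∀ g : I →ₗ[A] A, ∃ a : A, ∀ x (hx : x ∈ I), g ⟨x, hx⟩ = a * x := by
    intro I
    induction I using WellFoundedLT.induction with
    | ind I ih =>
      intro g
      by_cases hI : I = ⊥
      · subst hI
        refine ⟨0, ?_⟩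
        intro x hx
        have hx0 : (⟨x, hx⟩ : (⊥ : Ideal A)) = 0 := by
          exact Subtype.ext ((Submodule.mem_bot A).mp hx)
        rw [hx0, map_zero, zero_mul]
      · obtain ⟨J, hJ⟩ := exists_covBy_of_wellFoundedGT (a := I) (by
          rw [isMin_iff_eq_bot]; exact hI)
        obtain ⟨a, ha⟩ := ih J hJ.lt (g.comp (Submodule.inclusion hJ.le))
        have ha' : ∀ x (hx : x ∈ J), g ⟨x, hJ.le hx⟩ = a * x := fun x hx => ha x hx
        obtain ⟨x, hx, hxJ⟩ := SetLike.exists_of_lt hJ.lt
        obtain ⟨b, hb, hbI⟩ := SetLike.exists_of_lt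
          (lt_of_le_of_ne (ann_anti hJ.le) (ann_ne hK hmin hJ))
        have hgen := sup_span_of_covBy hJ hx hxJ
        have hbx : b * x ≠ 0 := by
          intro h0
          apply hbI
          intro y hy
          rw [← hgen] at hy
          obtain ⟨j, hj, s, hs, rfl⟩ := Submodule.mem_sup.mp hy
          obtain ⟨r, rfl⟩ := Ideal.mem_span_singleton'.mp hs
          rw [mul_add, hb j hj, zero_add, mul_left_comm, h0, mul_zero]
        obtain ⟨r, hr⟩ := soc_one (y := b * x) (z := g ⟨x, hx⟩ - a * x) hK hmin hbx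
          (by
            intro c hc
            rw [mul_left_comm]
            exact hb _ (mul_mem_of_covBy hJ hc hx))
          (by
            intro c hc
            have hcx := mul_mem_of_covBy hJ hc hx
            have h1 := ha' _ hcx
            have h2 : (⟨c * x, hJ.le hcx⟩ : I) = c • (⟨x, hx⟩ : I) := by
              ext; simp
            rw [h2, map_smul, smul_eq_mul] at h1
            rw [mul_sub, h1]
            ring)
        refine ⟨a + r * b, ?_⟩
        intro y hy
        have hy' := hy
        rw [← hgen] at hy'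
        obtain ⟨j, hj, s, hs, hjs⟩ := Submodule.mem_sup.mp hy'
        obtain ⟨t, rfl⟩ := Ideal.mem_span_singleton'.mp hs
        have h2 : (⟨y, hy⟩ : I) = ⟨j, hJ.le hj⟩ + t • (⟨x, hx⟩ : I) := by
          ext; simp [← hjs]
        have h3 : g ⟨x, hx⟩ = a * x + r * (b * x) := by
          rw [← hr]; ring
        rw [h2, map_add, map_smul, ha' j hj, smul_eq_mul, h3, ← hjs]
        have h4 := hb j hj
        calc a * j + t * (a * x + r * (b * x))
            = (a + r * b) * (j + t * x) - r * (b * j) := by ring
          _ = _ := by rw [h4, mul_zero, sub_zero]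
  intro I g
  obtain ⟨a, ha⟩ := key I g
  refine ⟨LinearMap.lsmul A A a, ?_⟩
  intro x hx
  rw [ha x hx]
  simp

end EA7
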