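import Mathlib

set_option autoImplicit false
open IsLocalRing

namespace EA7

open RingTheory.Sequence in
/-- Task S2 (X is rs-regular, so Ext^1_R(X, R/rs) = Ext^1_{R/rs}(X/rs X, R/rs) = 0). -/
theorem extend_to_quotient {R : Type} [CommRing R] (rs : List R)
    (hB : Module.Baer (R ⧸ Ideal.ofList rs) (R ⧸ Ideal.ofList rs))
    {P X : Type} [AddCommGroup P] [Module R P] [AddCommGroup X] [Module R X]
    (π : P →ₗ[R] X) (hπ : Function.Surjective π)
    (hX : RingTheory.Sequence.IsWeaklyRegular X rs)
    (φ : LinearMap.ker π →ₗ[R] R ⧸ Ideal.ofList rs) :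
    ∃ b : P →ₗ[R] R ⧸ Ideal.ofList rs, ∀ x : LinearMap.ker π, φ x = b x := by
  have hex := map_first_exact_on_four_term_right_exact_of_isSMulRegular_last (rs := rs)
    (f₁ := (0 : PUnit.{1} →ₗ[R] LinearMap.ker π)) (f₂ := (LinearMap.ker π).subtype) (f₃ := π)
    (by
      intro y
      constructor
      · intro hy
        exact ⟨0, by
          have : y = 0 := (LinearMap.ker π).subtype_injective (by simpa using hy)
          rw [this, map_zero]⟩
      · rintro ⟨x, rfl⟩
        simp)
    (by
      intro y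
      simp)
    hπ hX
  set f := Submodule.mapQ (Ideal.ofList rs • (⊤ : Submodule R (LinearMap.ker π)))
    (Ideal.ofList rs • (⊤ : Submodule R P)) (LinearMap.ker π).subtype
    (Submodule.smul_top_le_comap_smul_top (Ideal.ofList rs) (LinearMap.ker π).subtype) with hf
  have hinj : Function.Injective f := by
    rw [injective_iff_map_eq_zero]
    intro y hy
    obtain ⟨z, hz⟩ := (hex y).mp hy
    rw [← hz]
    obtain ⟨z, rfl⟩ := Submodule.Quotient.mk_surjective _ z
    rw [Submodule.mapQ_apply]
    simp
  have hsurj : Function.Surjective (algebraMap R (R ⧸ Ideal.ofList rs)) :=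
    Ideal.Quotient.mk_surjective
  have hφ : Ideal.ofList rs • (⊤ : Submodule R (LinearMap.ker π)) ≤ LinearMap.ker φ := by
    rw [Submodule.smul_le]
    intro r hr n _
    rw [LinearMap.mem_ker, map_smul]
    obtain ⟨c, hc⟩ := Ideal.Quotient.mk_surjective (φ n)
    rw [← hc, Algebra.smul_def]
    change (Ideal.Quotient.mk _ r) * _ = 0
    rw [Ideal.Quotient.eq_zero_iff_mem.mpr hr, zero_mul]
  let φ' := (Submodule.liftQ _ φ hφ).extendScalarsOfSurjective hsurj
  let f' := f.extendScalarsOfSurjective hsurj
  obtain ⟨h, hh⟩ := hB.extension_property f' hinj φ'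
  refine ⟨(h.restrictScalars R).comp (Submodule.mkQ _), ?_⟩
  intro x
  have h1 := LinearMap.congr_fun hh (Submodule.Quotient.mk x)
  have h2 : φ' (Submodule.Quotient.mk x) = φ x := rfl
  rw [← h2, ← h1]
  rfl

end EA7
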